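import Mathlib
import Pool.Agent.Q190.CSDefs
import Pool.Agent.Q190.CubicProj

/-!
# MP_093203: a convex body in three-space that is not a ball, all of whose projections are
translates of completely symmetric sets

The body is `K = {y | ⟪x, y⟫ ≤ h x for all x}` with `h x = ‖x‖ + x₀x₁x₂ / (10 ‖x‖²)`.
-/

namespace Pool.Agent.Results.MP_093203_gt.NonBallThreefold

open scoped InnerProductSpace
open Q190

/-- Translate of a completely symmetric set. -/
def IsTranslateOfCompletelySymmetric {V : Type*} [NormedAddCommGroup V] [InnerProductSpace ℝ V]
    [MeasurableSpace V] (B : Set V) : Prop :=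
  ∃ (A : Set V) (v : V), CompletelySymmetric A ∧ B = (fun y => y + v) '' A

section general

variable {V : Type*} [NormedAddCommGroup V] [InnerProductSpace ℝ V] [FiniteDimensional ℝ V]

/-- Every hyperplane projection of `K` is a translate of a completely symmetric set. -/
def ProjectionsAreTranslatesOfCompletelySymmetric [MeasurableSpace V] (K : Set V) : Prop :=
  ∀ u : V, ‖u‖ = 1 → IsTranslateOfCompletelySymmetric (proj (ℝ ∙ u)ᗮ K)

end general

/-- There is a convex body in three-space, not a Euclidean ball, all of whose projections are
translates of completely symmetric sets. -/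
theorem result : ∃ K : Set (EuclideanSpace ℝ (Fin 3)), IsConvexBody K ∧ ¬ IsBall K ∧
    ProjectionsAreTranslatesOfCompletelySymmetric K :=
  ⟨Cubic.K, Cubic.K_body, Cubic.K_not_ball, Cubic.projections⟩

end Pool.Agent.Results.MP_093203_gt.NonBallThreefold
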